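import Pool.Agent.TH281.PC.Final

/-!
# Parini's conjecture on ratios of principal eigenvalues of p-Laplacians
-/

open MeasureTheory Set

namespace Pool.Agent.Results.MP_a627f3_an.PariniConjecture

/-- The principal Dirichlet eigenvalue of the `p`-Laplacian on `Ω`: the infimum of the Rayleigh
quotients of nonzero `C¹` functions with compact support in `Ω`. -/
noncomputable def principalEigenvalue {E : Type*} [NormedAddCommGroup E] [InnerProductSpace ℝ E]
    [MeasureSpace E] (p : ℝ) (Ω : Set E) : ℝ :=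
  sInf {r | ∃ u : E → ℝ, ContDiff ℝ 1 u ∧ HasCompactSupport u ∧ tsupport u ⊆ Ω ∧ u ≠ 0 ∧
    r = (∫ x in Ω, ‖fderiv ℝ u x‖ ^ p) / (∫ x in Ω, |u x| ^ p)}

/-- `F_{p,q}(Ω) = λ_p(Ω)^{1/p} / λ_q(Ω)^{1/q}` -/
noncomputable def ratio {E : Type*} [NormedAddCommGroup E] [InnerProductSpace ℝ E]
    [MeasureSpace E] (p q : ℝ) (Ω : Set E) : ℝ :=
  principalEigenvalue p Ω ^ (1 / p) / principalEigenvalue q Ω ^ (1 / q)

/-- The one-dimensional constant `π_r = λ_r((0,1))^{1/r}`. -/
noncomputable def piConst (r : ℝ) : ℝ := principalEigenvalue r (Ioo (0 : ℝ) 1) ^ (1 / r)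

/-- Convex open subsets of `ℝ^d` of finite positive Lebesgue measure. -/
def Admissible (d : ℕ) (Ω : Set (EuclideanSpace ℝ (Fin d))) : Prop :=
  IsOpen Ω ∧ Convex ℝ Ω ∧ 0 < volume Ω ∧ volume Ω < ⊤

theorem principalEigenvalue_eq {E : Type*} [NormedAddCommGroup E] [InnerProductSpace ℝ E]
    [MeasureSpace E] {p : ℝ} (hp : 0 < p) (Ω : Set E) :
    principalEigenvalue p Ω = Pool.Agent.TH281.PC.lam p Ω := by
  unfold principalEigenvalue Pool.Agent.TH281.PC.lam Pool.Agent.TH281.PC.lamSet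
  congr 1
  ext r
  refine exists_congr fun u => and_congr_right fun _ => and_congr_right fun _ =>
    and_congr_right fun hs => and_congr_right fun _ => ?_
  have h1 : ∫ x in Ω, ‖fderiv ℝ u x‖ ^ p = ∫ x, ‖fderiv ℝ u x‖ ^ p := by
    refine setIntegral_eq_integral_of_forall_compl_eq_zero fun x hx => ?_
    have h3 : fderiv ℝ u x = 0 := by
      by_contra hne
      exact hx (hs (support_fderiv_subset ℝ hne))
    rw [h3, norm_zero, Real.zero_rpow hp.ne']
  have h2 : ∫ x in Ω, |u x| ^ p = ∫ x, |u x| ^ p := by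
    refine setIntegral_eq_integral_of_forall_compl_eq_zero fun x hx => ?_
    have h3 : u x = 0 := image_eq_zero_of_notMem_tsupport fun h => hx (hs h)
    rw [h3, abs_zero, Real.zero_rpow hp.ne']
  rw [h1, h2]

/-- Parini's conjecture for all `d ≥ 2` and `1 < q < p < ∞`: the supremum of `F_{p,q}` over convex
open sets of finite positive measure is `π_p / π_q`, and it is not attained. -/
theorem result (d : ℕ) (hd : 2 ≤ d) (p q : ℝ) (hq : 1 < q) (hqp : q < p) :
    IsLUB {r : ℝ | ∃ Ω : Set (EuclideanSpace ℝ (Fin d)), Admissible d Ω ∧ r = ratio p q Ω}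
      (piConst p / piConst q) ∧
    ∀ Ω : Set (EuclideanSpace ℝ (Fin d)), Admissible d Ω →
      ratio p q Ω < piConst p / piConst q := by
  have hp : 1 < p := hq.trans hqp
  have hp0 : 0 < p := by linarith
  have hq0 : 0 < q := by linarith
  have hc : piConst p / piConst q =
      Pool.Agent.TH281.PC.Jr p / Pool.Agent.TH281.PC.Jr q := by
    unfold piConst
    rw [principalEigenvalue_eq hp0, principalEigenvalue_eq hq0,
      Pool.Agent.TH281.PC.lam_unit_rpow hp, Pool.Agent.TH281.PC.lam_unit_rpow hq,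
      mul_div_mul_left _ _ two_ne_zero]
  have hlt : ∀ Ω : Set (EuclideanSpace ℝ (Fin d)), Admissible d Ω →
      ratio p q Ω < piConst p / piConst q := by
    intro Ω hΩ
    rw [hc, ratio, principalEigenvalue_eq hp0, principalEigenvalue_eq hq0]
    exact Pool.Agent.TH281.PC.ratio_lt hq hqp hd hΩ.1 hΩ.2.1 hΩ.2.2.1 hΩ.2.2.2
  refine ⟨⟨?_, ?_⟩, hlt⟩
  · rintro r ⟨Ω, hΩ, rfl⟩
    exact (hlt Ω hΩ).le
  · intro b hb
    rw [hc]
    obtain ⟨d', rfl⟩ : ∃ d', d = d' + 1 := ⟨d - 1, by omega⟩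
    refine Pool.Agent.TH281.PC.ratio_box (d := d') hq hqp fun L hL => ?_
    have h1 : Admissible (d' + 1) (Pool.Agent.TH925.J54.box d' L) :=
      Pool.Agent.TH925.J54.box_facts hL
    have h2 := hb ⟨_, h1, rfl⟩
    rwa [ratio, principalEigenvalue_eq hp0, principalEigenvalue_eq hq0] at h2

end Pool.Agent.Results.MP_a627f3_an.PariniConjecture
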